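import Pool.Agent.helper56.P3.Defs

/-!
# P3, module H4b (first part): roots of unity at dyadic valuations
-/

namespace Pool.Agent.helper56.P3

open Finset Pool.Agent.helper56.Per

section RootOrder

variable {F : Type*} [Field F] {Γ : Type*} [LinearOrderedCommGroupWithZero Γ]
    (v : Valuation F Γ)

include v in
theorem H4b_v_one_of_pow {ξ : F} {m : ℕ} (hm : m ≠ 0) (h : ξ ^ m = 1) : v ξ = 1 := by
  have h1 : v ξ ^ m = 1 := by rw [← map_pow, h, map_one]
  exact (pow_eq_one_iff_of_nonneg zero_le hm).1 h1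

theorem H4b_odd (h2 : v 2 < 1) {q0 : ℕ} (hq : Odd q0) : v (q0 : F) = 1 := by
  obtain ⟨r, rfl⟩ := hq
  have h3 : v ((r : ℕ) : F) ≤ 1 := by
    have : ∀ n : ℕ, v (n : F) ≤ 1 := by
      intro n
      induction n with
      | zero => simp
      | succ n ih =>
        push_cast
        exact v.map_add_le ih (by rw [map_one])
    exact this r
  have h4 : v (2 * ((r : ℕ) : F)) < 1 := by
    rw [map_mul]
    exact lt1_of_lt_of_le h2 h3
  push_cast
  rw [Valuation.map_add_eq_of_lt_right _ (by rw [map_one]; exact h4), map_one]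

/-- `v (ξ^(2^L) - 1) < 1` implies `v (ξ - 1) < 1` -/
theorem H4b_two_pow (h2 : v 2 < 1) {ξ : F} (hξ : v ξ = 1) (L : ℕ)
    (h : v (ξ ^ 2 ^ L - 1) < 1) : v (ξ - 1) < 1 := by
  induction L generalizing ξ with
  | zero => simpa using h
  | succ L ih =>
    have h1 : v (ξ ^ 2 - 1) < 1 := by
      apply ih (by rw [map_pow, hξ, one_pow])
      rw [← pow_mul, ← pow_succ']
      exact h
    have h3 : v (ξ - 1) ≤ 1 := by
      refine (v.map_sub _ _).trans ?_
      rw [hξ, map_one, max_self]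
    have h4 : v ((ξ - 1) ^ 2) < 1 := by
      rw [show (ξ - 1) ^ 2 = (ξ ^ 2 - 1) - 2 * (ξ - 1) by ring]
      refine lt_of_le_of_lt (v.map_sub _ _) (max_lt h1 ?_)
      rw [map_mul]
      exact lt1_of_lt_of_le h2 h3
    rw [map_pow] at h4
    exact (pow_lt_one_iff_of_nonneg zero_le two_ne_zero).1 h4

theorem H4b_root_lt (h2 : v 2 < 1) {ζ : F} {q0 L : ℕ} (hq0 : Odd q0)
    (hζ : IsPrimitiveRoot ζ (q0 * 2 ^ L)) {j : ℕ} (hj : q0 ∣ j) : v (ζ ^ j - 1) < 1 := by
  have hq : q0 * 2 ^ L ≠ 0 := Nat.mul_ne_zero hq0.pos.ne' (by positivity)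
  have hv : v ζ = 1 := H4b_v_one_of_pow v hq hζ.pow_eq_one
  obtain ⟨r, rfl⟩ := hj
  apply H4b_two_pow v h2 (by rw [map_pow, hv, one_pow]) L
  rw [← pow_mul, show q0 * r * 2 ^ L = q0 * 2 ^ L * r by ring, pow_mul, hζ.pow_eq_one, one_pow,
    sub_self, map_zero]
  exact zero_lt_one

theorem H4b_root_eq (h2 : v 2 < 1) {ζ : F} {q0 L : ℕ} (hq0 : Odd q0)
    (hζ : IsPrimitiveRoot ζ (q0 * 2 ^ L)) {j : ℕ} (hj : ¬ q0 ∣ j) : v (ζ ^ j - 1) = 1 := by
  have hq : q0 * 2 ^ L ≠ 0 := Nat.mul_ne_zero hq0.pos.ne' (by positivity)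
  have hv : v ζ = 1 := H4b_v_one_of_pow v hq hζ.pow_eq_one
  have hle : v (ζ ^ j - 1) ≤ 1 := by
    refine (v.map_sub _ _).trans ?_
    rw [map_pow, hv, map_one, one_pow, max_self]
  refine le_antisymm hle (not_lt.1 fun hlt => ?_)
  set ξ := ζ ^ (j * 2 ^ L) with hξdef
  have hξ1 : ξ ≠ 1 := by
    intro h
    have h3 := (hζ.pow_eq_one_iff_dvd _).1 h
    exact hj (Nat.dvd_of_mul_dvd_mul_right (by positivity) h3)
  have hξq : ξ ^ q0 = 1 := by
    rw [hξdef, ← pow_mul, show j * 2 ^ L * q0 = q0 * 2 ^ L * j by ring, pow_mul, hζ.pow_eq_one,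
      one_pow]
  have hvξ : v ξ = 1 := by rw [hξdef, map_pow, hv, one_pow]
  have hξlt : v (ξ - 1) < 1 := by
    rw [hξdef, pow_mul]
    have : ∀ m : ℕ, v ((ζ ^ j) ^ m - 1) < 1 := by
      intro m
      induction m with
      | zero => rw [pow_zero, sub_self, map_zero]; exact zero_lt_one
      | succ m ih =>
        rw [show (ζ ^ j) ^ (m + 1) - 1 = (ζ ^ j) ^ m * (ζ ^ j - 1) + ((ζ ^ j) ^ m - 1) by ring]
        apply Valuation.map_add_lt _ _ ih
        rw [map_mul, map_pow, map_pow, hv, one_pow, one_pow, one_mul]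
        exact hlt
    exact this _
  have hpow : ∀ m : ℕ, v (ξ ^ m - 1) < 1 := by
    intro m
    induction m with
    | zero => rw [pow_zero, sub_self, map_zero]; exact zero_lt_one
    | succ m ih =>
      rw [show ξ ^ (m + 1) - 1 = ξ ^ m * (ξ - 1) + (ξ ^ m - 1) by ring]
      apply Valuation.map_add_lt _ _ ih
      rw [map_mul, map_pow, hvξ, one_pow, one_mul]
      exact hξlt
  have hgeom : ∑ i ∈ range q0, ξ ^ i = 0 := by
    have h3 := geom_sum_mul ξ q0
    rw [hξq, sub_self] at h3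
    exact (mul_eq_zero.1 h3).resolve_right (sub_ne_zero.2 hξ1)
  have h5 : v (∑ i ∈ range q0, (ξ ^ i - 1)) < 1 := by
    apply Valuation.map_sum_lt _ one_ne_zero
    intro i _
    exact hpow i
  rw [Finset.sum_sub_distrib, hgeom, Finset.sum_const, card_range, nsmul_eq_mul, mul_one,
    zero_sub, Valuation.map_neg, H4b_odd v h2 hq0] at h5
  exact lt_irrefl _ h5

/-- decomposition of a root of unity of order `q = q0 * 2^L` at a dyadic valuation -/
theorem root_order {F : Type*} [Field F] {Γ : Type*} [LinearOrderedCommGroupWithZero Γ]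
    (v : Valuation F Γ) (h2 : v 2 < 1) {ζ : F} {q : ℕ} (hq : 0 < q) (hζ : IsPrimitiveRoot ζ q) :
    ∃ q0 L, Odd q0 ∧ q = q0 * 2 ^ L ∧ (∀ j, q0 ∣ j → v (ζ ^ j - 1) < 1) ∧
      ∀ j, ¬ q0 ∣ j → v (ζ ^ j - 1) = 1 := by
  obtain ⟨L, q0, hq0, hqe⟩ := Nat.exists_eq_two_pow_mul_odd hq.ne'
  have he : q = q0 * 2 ^ L := by rw [hqe, mul_comm]
  subst he
  exact ⟨q0, L, hq0, rfl, fun j hj => H4b_root_lt v h2 hq0 hζ hj,
    fun j hj => H4b_root_eq v h2 hq0 hζ hj⟩

end RootOrder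

end Pool.Agent.helper56.P3
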